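import Pool.Agent.H1.PP.Main

/-!
For every countable set `C` of irrational numbers and every `ψ` tending to infinity there is a strictly
increasing sequence of positive integers `a 1 < a 2 < ...` such that `({a n * β})` fails to have Poissonian
pair correlations for Lebesgue almost every real `β`, while `({a n * α})` has Poissonian pair correlations
for every `α ∈ C` and for a set of `α` of Hausdorff dimension `1` in every interval; the additive energy of
`a 1, ..., a N` is at least `N ^ 3 / ψ N` for all large `N`.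
-/

namespace Pool.Agent.Results.MP_b61c36_nt.PrescribedExceptions

open Pool.Agent.H53.PPC MeasureTheory Filter Topology

theorem result :
    ∀ C : Set ℝ, C.Countable → (∀ α ∈ C, Irrational α) → ∀ ψ : ℕ → ℝ, Tendsto ψ atTop atTop →
    ∃ a : ℕ → ℤ, StrictMono a ∧ (∀ n, 1 ≤ n → 0 < a n) ∧
      (∀ᵐ β : ℝ ∂volume, ¬ HasPPC (fun n => Int.fract ((a n : ℝ) * β))) ∧
      (∀ α ∈ C, HasPPC (fun n => Int.fract ((a n : ℝ) * α))) ∧
      (∀ x y : ℝ, x < y →
        dimH {α : ℝ | α ∈ Set.Ioo x y ∧ HasPPC (fun n => Int.fract ((a n : ℝ) * α))} = 1) ∧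
      ∀ᶠ N : ℕ in atTop, (N : ℝ) ^ 3 / ψ N ≤
        (((Finset.Icc 1 N ×ˢ Finset.Icc 1 N ×ˢ Finset.Icc 1 N ×ˢ Finset.Icc 1 N).filter
          (fun p : ℕ × ℕ × ℕ × ℕ => a p.1 + a p.2.1 = a p.2.2.1 + a p.2.2.2)).card : ℝ) := by
  intro C hC hirr ψ hψ
  exact Pool.Agent.H1.PP.main C hC hirr ψ hψ

end Pool.Agent.Results.MP_b61c36_nt.PrescribedExceptions
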